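import Pool.Agent.Helper8.TB.M_Chart

/-!
# Project TB, module Geo: Hausdorff measures of projections and sections
-/

set_option autoImplicit false

namespace Pool.Agent.Helper6.TB

open Pool.Helper8.TB MeasureTheory

private theorem exists_dir {m : ℕ} (hm : 1 ≤ m) (y : W m) (hy : ‖y‖ < 1) :
    ∃ (y0 : W m) (s : ℝ), ‖y0‖ = 1 ∧ 0 ≤ s ∧ s ≤ 1 ∧ y = s • y0 := by
  by_cases h0 : y = 0
  · refine ⟨EuclideanSpace.single ⟨0, by omega⟩ 1, 0, ?_, le_rfl, zero_le_one, ?_⟩
    · simp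
    · rw [zero_smul, h0]
  · have hp : 0 < ‖y‖ := norm_pos_iff.mpr h0
    refine ⟨(‖y‖)⁻¹ • y, ‖y‖, ?_, hp.le, hy.le, ?_⟩
    · rw [norm_smul, norm_inv, norm_norm, inv_mul_cancel₀ hp.ne']
    · rw [smul_smul, mul_inv_cancel₀ hp.ne', one_smul]

/-- GEO. -/
theorem hGeo : StGeo := by
  intro m J u hm hF K
  obtain ⟨hP, -, -, -, -, -⟩ := hChart m J u hF
  have hm0 : (0 : ℝ) ≤ (m : ℝ) := Nat.cast_nonneg m
  refine ⟨?_, ?_, ?_⟩
  · have e : (fun x : W (m + 1) => x - (inner ℝ x u : ℝ) • u) '' K = J '' (Jt J '' K) := by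
      rw [Set.image_image]
      refine Set.image_congr fun x _ => ?_
      exact (hP x).symm
    rw [e]
    exact J.isometry.hausdorffMeasure_image (Or.inl hm0) _
  · intro t
    have hiso : Isometry (fun x : W (m + 1) => x - t • u) := by
      refine Isometry.of_dist_eq fun x y => ?_
      rw [dist_sub_right]
    have e : (fun x : W (m + 1) => x - (inner ℝ x u : ℝ) • u) '' (K ∩ {x : W (m + 1) | (inner ℝ x u : ℝ) = t}) =
        (fun x : W (m + 1) => x - t • u) '' (K ∩ {x : W (m + 1) | (inner ℝ x u : ℝ) = t}) := by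
      refine Set.image_congr fun x hx => ?_
      have h2 : (inner ℝ x u : ℝ) = t := hx.2
      rw [h2]
    rw [← hiso.hausdorffMeasure_image (Or.inl hm0) (K ∩ {x : W (m + 1) | (inner ℝ x u : ℝ) = t}), ← e]
    exact measure_mono (Set.image_mono Set.inter_subset_left)
  · intro hcv hK
    rw [← J.isometry.hausdorffMeasure_image (Or.inl hm0) (Metric.ball (0 : W m) 1)]
    refine measure_mono ?_
    rintro _ ⟨y, hy, rfl⟩
    refine ⟨?_, hF.hJ y⟩
    rw [mem_ball_zero_iff] at hy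
    obtain ⟨y0, s, h1, h2, h3, h4⟩ := exists_dir hm y hy
    have k1 : J y0 ∈ K := hK _ (by rw [J.norm_map, h1]) (hF.hJ y0)
    have k2 : J (-y0) ∈ K := hK _ (by rw [J.norm_map, norm_neg, h1]) (hF.hJ (-y0))
    have k3 := hcv k1 k2 (show (0 : ℝ) ≤ (1 + s) / 2 by linarith) (show (0 : ℝ) ≤ (1 - s) / 2 by linarith)
      (by ring)
    have e : J y = ((1 + s) / 2) • J y0 + ((1 - s) / 2) • J (-y0) := by
      rw [h4, map_smul, map_neg, smul_neg, ← sub_eq_add_neg, ← sub_smul]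
      congr 1
      ring
    rw [e]
    exact k3

end Pool.Agent.Helper6.TB
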