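import Pool.Agent.Helper87.TB.St

/-!
# Module CT of the project TB: counting of the syndromes
-/

set_option autoImplicit false

noncomputable section

namespace Pool.Agent.Helper6.TB

open Finset Pool.Agent.Helper87.TB
open scoped Classical

lemma z2_one (a : ZMod 2) (h : a ≠ 0) : a = 1 := by
  revert a
  decide

lemma z2_sub (a b : ZMod 2) : a - b = a + b := by
  revert a b
  decide

lemma w_sub {n : ℕ} (x y : W n) : x - y = x + y := by
  funext i
  exact z2_sub (x i) (y i)

lemma ind_split {n : ℕ} {J I : Finset (Fin n)} (h : J ⊆ I) : ind I = ind J + ind (I \ J) := by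
  funext i
  simp only [ind, Pi.add_apply, Finset.mem_sdiff]
  by_cases hJ : i ∈ J
  · simp [hJ, h hJ]
  · by_cases hI : i ∈ I
    · simp [hJ, hI]
    · simp [hJ, hI]

lemma word_eq_ind {n : ℕ} (x : W n) : ∃ J : Finset (Fin n), J.card = hammingNorm x ∧ ind J = x := by
  refine ⟨univ.filter (fun i => x i ≠ 0), rfl, ?_⟩
  funext i
  simp only [ind, Finset.mem_filter, Finset.mem_univ, true_and]
  by_cases h : x i = 0
  · simp [h]
  · simp only [ne_eq, h, not_false_eq_true, if_true]
    exact (z2_one _ h).symm

/-- the class of the word of `J` -/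
def sig {n : ℕ} (V : Submodule (ZMod 2) (W n)) (J : Finset (Fin n)) : W n ⧸ V := V.mkQ (ind J)

lemma sig_eq {n : ℕ} (V : Submodule (ZMod 2) (W n)) (J K : Finset (Fin n)) :
    sig V K = sig V J ↔ ind J + ind K ∈ V := by
  unfold sig
  rw [eq_comm, Submodule.mkQ_apply, Submodule.mkQ_apply, Submodule.Quotient.eq, w_sub]

lemma mult_eq {n : ℕ} (V : Submodule (ZMod 2) (W n)) (J : Finset (Fin n)) :
    mult V J = ((powersetCard J.card univ).filter (fun K => sig V K = sig V J)).card := by
  unfold mult
  congr 1
  ext K
  simp only [Finset.mem_filter, Finset.mem_univ, true_and, Finset.mem_powersetCard,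
    Finset.subset_univ, sig_eq]

theorem aCT : StCT := by
  intro n r ω V hn hr hC
  let _ : Fintype (W n ⧸ V) := Fintype.ofFinite _
  -- classes with at least `ω` sets of size `j`
  obtain ⟨P, hP⟩ : ∃ P : ℕ → Finset (W n ⧸ V), P = fun j =>
      univ.filter (fun q => ω ≤ ((powersetCard j univ).filter (fun K => sig V K = q)).card) :=
    ⟨_, rfl⟩
  have hPc : ∀ j, ω * (P j).card ≤ n ^ j := by
    intro j
    have h1 : (P j).card * ω ≤
        ∑ q ∈ P j, ((powersetCard j univ).filter (fun K => sig V K = q)).card := by
      have := Finset.card_nsmul_le_sum (P j)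
        (fun q => ((powersetCard j univ).filter (fun K => sig V K = q)).card) ω (by
          intro q hq
          rw [hP] at hq
          exact (Finset.mem_filter.1 hq).2)
      simpa using this
    have h2 : ∑ q ∈ P j, ((powersetCard j univ).filter (fun K => sig V K = q)).card ≤
        (powersetCard j (univ : Finset (Fin n))).card := by
      rw [← Finset.card_biUnion]
      · exact Finset.card_le_card (Finset.biUnion_subset.2 fun q _ => Finset.filter_subset _ _)
      · intro a _ b _ hab
        rw [Function.onFun, Finset.disjoint_left]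
        intro K hK hK'
        exact hab ((Finset.mem_filter.1 hK).2.symm.trans (Finset.mem_filter.1 hK').2)
    rw [Finset.card_powersetCard, Finset.card_univ, Fintype.card_fin] at h2
    calc ω * (P j).card = (P j).card * ω := Nat.mul_comm _ _
      _ ≤ _ := h1
      _ ≤ _ := h2
      _ ≤ n ^ j := Nat.choose_le_pow n j
  -- the three families
  obtain ⟨A, hA⟩ : ∃ A : Finset (W n ⧸ V), A = (poorSets V ω r).image (sig V) := ⟨_, rfl⟩
  obtain ⟨B, hB⟩ : ∃ B : Finset (W n ⧸ V), B = (Finset.Icc 1 r).biUnion (fun j =>
      ((P j) ×ˢ (powersetCard (r - j) univ).image (sig V)).image (fun a => a.1 + a.2)) :=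
    ⟨_, rfl⟩
  obtain ⟨C, hCC⟩ : ∃ C : Finset (W n ⧸ V), C = (Finset.range r).biUnion (fun k =>
      (powersetCard k univ).image (sig V)) := ⟨_, rfl⟩
  have hcover : (univ : Finset (W n ⧸ V)) ⊆ A ∪ B ∪ C := by
    intro q _
    obtain ⟨y, rfl⟩ := Submodule.mkQ_surjective V q
    obtain ⟨v, hv, hw⟩ := hC y
    obtain ⟨I, hI, hIx⟩ := word_eq_ind (y - v)
    have hq : V.mkQ y = sig V I := by
      unfold sig
      rw [hIx, Submodule.mkQ_apply, Submodule.mkQ_apply, Submodule.Quotient.eq]
      have : y - (y - v) = v := by abel
      rw [this]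
      exact hv
    rw [hq]
    rcases Nat.lt_or_ge I.card r with hlt | hge
    · refine Finset.mem_union_right _ ?_
      rw [hCC]
      refine Finset.mem_biUnion.2 ⟨I.card, Finset.mem_range.2 hlt, ?_⟩
      exact Finset.mem_image_of_mem _ (Finset.mem_powersetCard.2 ⟨Finset.subset_univ _, rfl⟩)
    · have hcard : I.card = r := le_antisymm (by rw [hI]; exact hw) hge
      refine Finset.mem_union_left _ ?_
      by_cases hpoor : ∀ J : Finset (Fin n), J ⊆ I → J.Nonempty → ¬ Rich V ω J
      · refine Finset.mem_union_left _ ?_
        rw [hA]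
        exact Finset.mem_image_of_mem _
          (Finset.mem_filter.2 ⟨Finset.mem_univ _, hcard, hpoor⟩)
      · refine Finset.mem_union_right _ ?_
        push Not at hpoor
        obtain ⟨J, hJI, hJn, hrich⟩ := hpoor
        rw [hB]
        have hJ1 : 1 ≤ J.card := hJn.card_pos
        have hJr : J.card ≤ r := by rw [← hcard]; exact Finset.card_le_card hJI
        refine Finset.mem_biUnion.2 ⟨J.card, Finset.mem_Icc.2 ⟨hJ1, hJr⟩, ?_⟩
        refine Finset.mem_image.2 ⟨(sig V J, sig V (I \ J)), ?_, ?_⟩
        · refine Finset.mem_product.2 ⟨?_, ?_⟩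
          · rw [hP]
            refine Finset.mem_filter.2 ⟨Finset.mem_univ _, ?_⟩
            rw [← mult_eq]
            exact hrich
          · refine Finset.mem_image_of_mem _ (Finset.mem_powersetCard.2
              ⟨Finset.subset_univ _, ?_⟩)
            rw [Finset.card_sdiff_of_subset hJI, hcard]
        · simp only [sig]
          rw [← map_add, ← ind_split hJI]
  have hAc : A.card ≤ (poorSets V ω r).card := by rw [hA]; exact Finset.card_image_le
  have hCc : C.card ≤ r * n ^ (r - 1) := by
    rw [hCC]
    refine Finset.card_biUnion_le.trans ?_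
    calc ∑ k ∈ Finset.range r, ((powersetCard k univ).image (sig V)).card
        ≤ ∑ _k ∈ Finset.range r, n ^ (r - 1) := by
          refine Finset.sum_le_sum fun k hk => ?_
          refine Finset.card_image_le.trans ?_
          rw [Finset.card_powersetCard, Finset.card_univ, Fintype.card_fin]
          refine (Nat.choose_le_pow n k).trans (Nat.pow_le_pow_right hn ?_)
          have := Finset.mem_range.1 hk
          omega
      _ = r * n ^ (r - 1) := by rw [Finset.sum_const, Finset.card_range, smul_eq_mul]
  have hBc : ω * B.card ≤ r * n ^ r := by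
    rw [hB]
    refine (Nat.mul_le_mul_left _ Finset.card_biUnion_le).trans ?_
    rw [Finset.mul_sum]
    calc ∑ j ∈ Finset.Icc 1 r, ω * (((P j) ×ˢ (powersetCard (r - j) univ).image (sig V)).image
          (fun a => a.1 + a.2)).card
        ≤ ∑ _j ∈ Finset.Icc 1 r, n ^ r := by
          refine Finset.sum_le_sum fun j hj => ?_
          obtain ⟨_, hj2⟩ := Finset.mem_Icc.1 hj
          have h1 : (((P j) ×ˢ (powersetCard (r - j) univ).image (sig V)).image
              (fun a => a.1 + a.2)).card ≤ (P j).card * n ^ (r - j) := by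
            refine Finset.card_image_le.trans ?_
            rw [Finset.card_product]
            refine Nat.mul_le_mul_left _ (Finset.card_image_le.trans ?_)
            rw [Finset.card_powersetCard, Finset.card_univ, Fintype.card_fin]
            exact Nat.choose_le_pow n (r - j)
          calc _ ≤ ω * ((P j).card * n ^ (r - j)) := Nat.mul_le_mul_left _ h1
            _ = (ω * (P j).card) * n ^ (r - j) := by ring
            _ ≤ n ^ j * n ^ (r - j) := Nat.mul_le_mul_right _ (hPc j)
            _ = n ^ r := by rw [← pow_add]; congr 1; omega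
      _ = r * n ^ r := by
          rw [Finset.sum_const, Nat.card_Icc, smul_eq_mul]
          simp
  have hQ : Nat.card (W n ⧸ V) ≤ A.card + B.card + C.card := by
    rw [Nat.card_eq_fintype_card, ← Finset.card_univ]
    refine (Finset.card_le_card hcover).trans ?_
    refine (Finset.card_union_le _ _).trans ?_
    have := Finset.card_union_le A B
    omega
  have hW : (2 : ℕ) ^ n = Nat.card V * Nat.card (W n ⧸ V) := by
    have h := Submodule.card_eq_card_quotient_mul_card V
    have h2 : Nat.card (W n) = 2 ^ n := by
      rw [Nat.card_eq_fintype_card, Fintype.card_fun, ZMod.card, Fintype.card_fin]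
    rw [← h2, h]
  have hmain : ω * Nat.card (W n ⧸ V) ≤
      ω * (poorSets V ω r).card + r * n ^ r + ω * (r * n ^ (r - 1)) := by
    calc ω * Nat.card (W n ⧸ V) ≤ ω * (A.card + B.card + C.card) := Nat.mul_le_mul_left _ hQ
      _ = ω * A.card + ω * B.card + ω * C.card := by ring
      _ ≤ ω * (poorSets V ω r).card + r * n ^ r + ω * (r * n ^ (r - 1)) := by
          gcongr
  rw [hW]
  calc ω * (Nat.card V * Nat.card (W n ⧸ V)) = Nat.card V * (ω * Nat.card (W n ⧸ V)) := by ring
    _ ≤ _ := Nat.mul_le_mul_left _ hmain

end Pool.Agent.Helper6.TB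

end
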